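import Pool.Agent.RSCubic.Basic

set_option autoImplicit false

namespace Pool.Agent.RSCubic

open Finset

section abs

variable {V : Type*} [AddCommGroup V] [Module (ZMod 2) V]

lemma v_self (x : V) : x + x = 0 := by
  have h : (2 : ZMod 2) • x = x + x := two_smul _ _
  rw [← h, two0, zero_smul]

lemma end_two : (2 : Module.End (ZMod 2) V) = 0 := by
  have h : (2 : Module.End (ZMod 2) V) = 1 + 1 := by norm_num
  rw [h]
  ext x
  simp [v_self]

lemma frob (σ : Module.End (ZMod 2) V) (k : ℕ) :
    (σ + 1) ^ (2 ^ k) = σ ^ (2 ^ k) + 1 := by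
  induction k with
  | zero => simp
  | succ k ih =>
    rw [pow_succ, pow_mul, ih, pow_mul, sq, sq]
    have : (σ ^ 2 ^ k + 1) * (σ ^ 2 ^ k + 1)
        = σ ^ 2 ^ k * σ ^ 2 ^ k + 1 + 2 * σ ^ 2 ^ k := by
      noncomm_ring
    rw [this, end_two, zero_mul, add_zero]

lemma uni (δ : Module.End (ZMod 2) V) (one : V)
    (hker : ∀ x, δ x = 0 → x = 0 ∨ x = one)
    (K : AddSubgroup V) (hK : ∀ z ∈ K, δ z ∈ K) (y : V) (hy : y ∈ K) (k : ℕ)
    (hky : (δ ^ k) y = one) :
    ∀ j, j ≤ k + 1 → ∀ z, (δ ^ j) z = 0 → z ∈ K := by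
  have hKp : ∀ i, ∀ z ∈ K, (δ ^ i) z ∈ K := by
    intro i
    induction i with
    | zero => intro z hz; simpa using hz
    | succ i ih =>
      intro z hz
      rw [pow_succ]
      exact ih _ (hK z hz)
  intro j
  induction j with
  | zero =>
    intro _ z hz
    simp at hz
    rw [hz]; exact K.zero_mem
  | succ j ih =>
    intro hj z hz
    rw [pow_succ'] at hz
    rcases hker _ hz with h0 | h1
    · exact ih (by omega) z h0
    · have hz' : (δ ^ j) (z + (δ ^ (k - j)) y) = 0 := by
        rw [map_add, h1]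
        have : (δ ^ j) ((δ ^ (k - j)) y) = (δ ^ k) y := by
          have h2 : k = j + (k - j) := by omega
          conv_rhs => rw [h2, pow_add]
          rfl
        rw [this, hky, v_self]
      have hmem := ih (by omega) _ hz'
      have h3 : z = (z + (δ ^ (k - j)) y) + (δ ^ (k - j)) y := by
        rw [add_assoc, v_self, add_zero]
      rw [h3]
      exact K.add_mem hmem (hKp _ y hy)

/-- The abstract form of the main theorem. -/
theorem abstract_main [Fintype V] (σ : Module.End (ZMod 2) V) (one : V) (a n' : ℕ)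
    (hn' : Odd n')
    (hσ : σ ^ (2 ^ (a + 1) * n') = 1)
    (hker : ∀ x, σ x = x → x = 0 ∨ x = one) (hone : σ one = one) (hne : one ≠ 0)
    (hE : ∀ x, (σ ^ (2 ^ a * n')) x = x → ∃ z, x = z + (σ ^ (2 ^ a * n')) z)
    (f : V → ZMod 2) (hf : ∀ x, f (σ x) = f x)
    (hT : ∀ x x' y z, T f (x + x') y z = T f x y z + T f x' y z)
    (hconst : ∀ x, (σ ^ (2 ^ a * n')) x = x → f x = f 0)
    (hbal : ∀ e, e ≠ 0 → ∑ x, chi (f x + f (x + e)) = 0) : False := by
  classical
  have hV := v_self (V := V)
  set s : ℕ := 2 ^ a with hs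
  set τ := σ ^ (s * n') with hτ
  set δ := σ + 1 with hδ
  have hδa : ∀ x, δ x = σ x + x := fun x => rfl
  -- basic facts on T
  have hfp : ∀ k : ℕ, ∀ x, f ((σ ^ k) x) = f x := by
    intro k
    induction k with
    | zero => intro x; simp
    | succ k ih => intro x; rw [pow_succ]; exact (ih _).trans (hf x)
  have hTinv : ∀ x y z, T f (σ x) (σ y) (σ z) = T f x y z := by
    intro x y z
    unfold T
    simp only [← map_add, hf]
  have hTτ : ∀ x y z, T f (τ x) (τ y) (τ z) = T f x y z := by
    intro x y z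
    unfold T
    simp only [← map_add, hτ, hfp]
  have hT2 : ∀ x y y' z, T f x (y + y') z = T f x y z + T f x y' z := by
    intro x y y' z
    rw [T_swap12, hT, T_swap12 f y, T_swap12 f y']
  have hT3 : ∀ x y z z', T f x y (z + z') = T f x y z + T f x y z' := by
    intro x y z z'
    rw [T_swap23, hT2, T_swap23 f x z, T_swap23 f x z']
  have hT0 : ∀ x y, T f x y 0 = 0 := by
    intro x y
    have := hT3 x y 0 0
    rw [add_zero] at this
    have h2 : T f x y 0 + T f x y 0 + T f x y 0 = T f x y 0 := by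
      linear_combination (T f x y 0) * two0
    have h3 := z2_self (T f x y 0)
    rw [h3] at this
    exact this
  -- τ is an involution
  have hττ : ∀ x, τ (τ x) = x := by
    intro x
    have : τ * τ = 1 := by
      rw [hτ, ← pow_add, ← hσ]
      congr 1
      rw [hs]; ring
    exact congrArg (fun g : Module.End (ZMod 2) V => g x) this
  have hτσ : ∀ x, τ (σ x) = σ (τ x) := by
    intro x
    have : τ * σ = σ * τ := by
      rw [hτ, ← pow_succ, ← pow_succ']
    exact congrArg (fun g : Module.End (ZMod 2) V => g x) this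
  -- the subgroup E
  let E : AddSubgroup V :=
    { carrier := {x | τ x = x}
      add_mem' := by
        intro x y hx hy
        simp only [Set.mem_setOf_eq] at *
        rw [map_add, hx, hy]
      zero_mem' := by simp
      neg_mem' := by
        intro x hx
        simp only [Set.mem_setOf_eq] at *
        rw [map_neg, hx] }
  have hEmem : ∀ x, x ∈ E ↔ τ x = x := fun x => Iff.rfl
  have hNmem : ∀ x, x + τ x ∈ E := by
    intro x
    rw [hEmem, map_add, hττ, add_comm]
  have hcard : Fintype.card E * Fintype.card E = Fintype.card V := by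
    let N : V →+ V := (τ + 1 : Module.End (ZMod 2) V).toAddMonoidHom
    have hNa : ∀ x, N x = τ x + x := fun x => rfl
    have hkerN : N.ker = E := by
      ext x
      rw [AddMonoidHom.mem_ker, hNa, hEmem]
      constructor
      · intro h
        have h1 : τ x = τ x + x + x := by rw [add_assoc, hV, add_zero]
        rw [h1, h, zero_add]
      · intro h
        rw [h, hV]
    have hranN : N.range = E := by
      ext x
      rw [AddMonoidHom.mem_range]
      constructor
      · rintro ⟨y, rfl⟩
        rw [hNa, add_comm]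
        exact hNmem y
      · intro h
        obtain ⟨z, hz⟩ := hE x h
        exact ⟨z, by rw [hNa, hz, add_comm]⟩
    have h1 := AddSubgroup.card_mul_index E
    have h2 : E.index = Nat.card E := by
      have h3 := AddSubgroup.index_ker N
      rw [hkerN, hranN] at h3
      exact h3
    rw [h2] at h1
    simpa [Nat.card_eq_fintype_card] using h1
  -- δ powers
  have hδs : ∀ x, (δ ^ s) x = (σ ^ s) x + x := by
    intro x
    rw [hδ, hs, frob]
    rfl
  have hδ2s : ∀ x, (δ ^ (2 * s)) x = (σ ^ (2 * s)) x + x := by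
    intro x
    have : 2 * s = 2 ^ (a + 1) := by rw [hs]; ring
    rw [hδ, this, frob]
    rfl
  have hkerδ : ∀ x, δ x = 0 → x = 0 ∨ x = one := by
    intro x hx
    apply hker
    rw [hδa] at hx
    have h1 : σ x = σ x + x + x := by rw [add_assoc, hV, add_zero]
    rw [h1, hx, zero_add]
  have hδone : δ one = 0 := by rw [hδa, hone, hV]
  -- on the period 2s part, τ = σ^s
  have hper : ∀ x, (σ ^ (2 * s)) x = x → τ x = (σ ^ s) x := by
    intro x hx
    obtain ⟨t, ht⟩ := hn'
    have h1 : ∀ t : ℕ, ((σ ^ (2 * s)) ^ t) x = x := by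
      intro t
      induction t with
      | zero => simp
      | succ t ih =>
        rw [pow_succ]
        show ((σ ^ (2 * s)) ^ t) ((σ ^ (2 * s)) x) = x
        rw [hx, ih]
    have h2 : τ = σ ^ s * (σ ^ (2 * s)) ^ t := by
      rw [hτ, ht, ← pow_mul, ← pow_add]
      congr 1
      ring
    rw [h2]
    show (σ ^ s) (((σ ^ (2 * s)) ^ t) x) = _
    rw [h1]
  -- the averaging operator
  let P : Module.End (ZMod 2) V := ∑ j ∈ Finset.range n', (σ ^ (2 * s)) ^ j
  have hPa : ∀ x, P x = ∑ j ∈ Finset.range n', ((σ ^ (2 * s)) ^ j) x := by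
    intro x
    simp [P]
  have hPper : ∀ x, (σ ^ (2 * s)) (P x) = P x := by
    intro x
    have h1 : σ ^ (2 * s) * P = P := by
      have h2 : (σ ^ (2 * s)) ^ n' = 1 := by
        rw [← pow_mul, ← hσ]
        congr 1
        rw [hs]; ring
      have h3 := Finset.sum_range_succ' (fun j => (σ ^ (2 * s)) ^ j) n'
      rw [Finset.sum_range_succ, h2, pow_zero] at h3
      have h4 : P = ∑ k ∈ Finset.range n', (σ ^ (2 * s)) ^ (k + 1) := add_right_cancel h3
      rw [h4]
      conv_lhs => rw [← h4]
      simp only [P]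
      rw [Finset.mul_sum]
      exact Finset.sum_congr rfl fun k _ => (pow_succ' _ _).symm
    exact congrArg (fun g : Module.End (ZMod 2) V => g x) h1
  have hPmem : ∀ (K : AddSubgroup V), (∀ z ∈ K, σ z ∈ K) → ∀ z ∈ K, P z ∈ K := by
    intro K hK z hz
    have h1 : ∀ i : ℕ, (σ ^ i) z ∈ K := by
      intro i
      induction i with
      | zero => simpa using hz
      | succ i ih => rw [pow_succ']; exact hK _ ih
    rw [hPa]
    refine K.sum_mem fun j _ => ?_
    rw [← pow_mul]
    exact h1 _
  -- invariant functionals and averaging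
  have hPlam : ∀ (K : AddSubgroup V) (lam : V → ZMod 2), (∀ z ∈ K, σ z ∈ K) →
      (∀ x ∈ K, ∀ y ∈ K, lam (x + y) = lam x + lam y) → (∀ x ∈ K, lam (σ x) = lam x) →
      ∀ x ∈ K, lam (P x) = lam x := by
    intro K lam hK hadd hinv x hx
    have hmem : ∀ i : ℕ, (σ ^ i) x ∈ K := by
      intro i
      induction i with
      | zero => simpa using hx
      | succ i ih => rw [pow_succ']; exact hK _ ih
    have hlam : ∀ i : ℕ, lam ((σ ^ i) x) = lam x := by
      intro i
      induction i with
      | zero => simp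
      | succ i ih =>
        rw [pow_succ']
        show lam (σ ((σ ^ i) x)) = _
        rw [hinv _ (hmem i), ih]
    have hlam0 : lam 0 = 0 := by
      have := hadd 0 K.zero_mem 0 K.zero_mem
      rw [add_zero, z2_self] at this
      exact this
    have hsumr : ∀ t : ℕ, (∑ j ∈ Finset.range t, ((σ ^ (2 * s)) ^ j) x ∈ K) ∧
        lam (∑ j ∈ Finset.range t, ((σ ^ (2 * s)) ^ j) x) = (t : ZMod 2) * lam x := by
      intro t
      induction t with
      | zero => exact ⟨by simp [K.zero_mem], by simp [hlam0]⟩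
      | succ t ih =>
        have hm : ((σ ^ (2 * s)) ^ t) x ∈ K := by rw [← pow_mul]; exact hmem _
        rw [Finset.sum_range_succ]
        refine ⟨K.add_mem ih.1 hm, ?_⟩
        rw [hadd _ ih.1 _ hm, ih.2, ← pow_mul, hlam]
        push_cast; ring
    rw [hPa, (hsumr n').2]
    obtain ⟨t, ht⟩ := hn'
    rw [ht]
    push_cast
    linear_combination ((t : ZMod 2) * lam x) * two0
  -- f is constant on E
  have hoE : one ∈ E := by
    rw [hEmem, hτ]
    have : ∀ k : ℕ, (σ ^ k) one = one := by
      intro k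
      induction k with
      | zero => simp
      | succ k ih => rw [pow_succ]; show (σ ^ k) (σ one) = one; rw [hone, ih]
    exact this _
  have hTE : ∀ x ∈ E, ∀ y ∈ E, ∀ z ∈ E, T f x y z = 0 := by
    intro x hx y hy z hz
    unfold T
    rw [hconst _ (E.add_mem (E.add_mem hx hy) hz), hconst _ (E.add_mem hx hy),
      hconst _ (E.add_mem hx hz), hconst _ (E.add_mem hy hz), hconst _ hx, hconst _ hy,
      hconst _ hz]
    linear_combination (4 * f 0) * two0
  -- Step 3: the radical of D_1 f
  obtain ⟨r, hrad, hr⟩ := quad_rad (fun x => f x + f (x + one)) (fun x y => T f x y one)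
    (by
      intro x y
      have h1 : x + y + one = x + y + one := rfl
      simp only [T]
      rw [zero_add]
      linear_combination (f x + f (x+one) + f y + f (y + one) + f one + f 0) * two0 * (-1 : ZMod 2))
    (by
      intro x x' y
      exact hT x x' y one)
    (hbal one hne)
  -- K is the radical
  let K : AddSubgroup V :=
    { carrier := {y | ∀ x, T f x y one = 0}
      add_mem' := by
        intro y y' hy hy' x
        rw [hT2, hy x, hy' x, add_zero]
      zero_mem' := by
        intro x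
        rw [T_swap23]
        exact hT0 x one
      neg_mem' := by
        intro y hy x
        have : -y = y := neg_eq_of_add_eq_zero_left (hV y)
        rw [this]
        exact hy x }
  have hKmem : ∀ y, y ∈ K ↔ ∀ x, T f x y one = 0 := fun y => Iff.rfl
  have hσinv : ∀ x, ∃ x', x = σ x' := by
    intro x
    refine ⟨(σ ^ (2 ^ (a + 1) * n' - 1)) x, ?_⟩
    have h1 : σ * σ ^ (2 ^ (a + 1) * n' - 1) = 1 := by
      rw [← pow_succ', ← hσ]
      congr 1
      have : 0 < 2 ^ (a + 1) * n' := Nat.mul_pos (by positivity) hn'.pos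
      omega
    exact (congrArg (fun g : Module.End (ZMod 2) V => g x) h1).symm
  have hKσ : ∀ z ∈ K, σ z ∈ K := by
    intro z hz x
    obtain ⟨x', rfl⟩ := hσinv x
    have := hTinv x' z one
    rw [hone] at this
    rw [this]
    exact hz x'
  let lam : V → ZMod 2 := fun x => f x + f (x + one) + f 0 + f one
  have hlam_add : ∀ x ∈ K, ∀ y ∈ K, lam (x + y) = lam x + lam y := by
    intro x _ y hy
    have h1 := hy x
    simp only [lam]
    simp only [T] at h1
    linear_combination h1 - (f x + f (x + one) + f y + f (y + one) + f one + f 0) * two0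
  have hlam_inv : ∀ x ∈ K, lam (σ x) = lam x := by
    intro x _
    simp only [lam]
    have h1 : σ x + one = σ (x + one) := by rw [map_add, hone]
    rw [h1, hf, hf]
  have hrK : r ∈ K := hrad
  have hlam_r : lam r ≠ 0 := by
    intro h
    apply hr
    simp only [lam] at h
    show f r + f (r + one) = f 0 + f (0 + one)
    rw [zero_add]
    apply z2_eq_of_add
    linear_combination h
  -- project
  have hPr := hPlam K lam hKσ hlam_add hlam_inv r hrK
  have hPrK := hPmem K hKσ r hrK
  set y := P r with hy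
  have hyper : (σ ^ (2 * s)) y = y := hPper r
  have hyE : y ∉ E := by
    intro h
    apply hlam_r
    rw [← hPr]
    simp only [lam]
    rw [hconst _ h, hconst _ (E.add_mem h hoE), hconst _ hoE]
    linear_combination (2 * f 0) * two0
  have hδsy : (δ ^ s) y ≠ 0 := by
    intro h
    apply hyE
    rw [hEmem, hper y hyper]
    rw [hδs] at h
    have h1 : (σ ^ s) y = (σ ^ s) y + y + y := by rw [add_assoc, hV, add_zero]
    rw [h1, h, zero_add]
  have hδ2sy : (δ ^ (2 * s)) y = 0 := by
    rw [hδ2s, hyper, hV]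
  -- largest k with δ^k y ≠ 0
  have hex : ∃ k, s ≤ k ∧ (δ ^ k) y ≠ 0 ∧ (δ ^ (k + 1)) y = 0 := by
    by_contra hcon
    push Not at hcon
    have : ∀ j, (δ ^ (s + j)) y ≠ 0 := by
      intro j
      induction j with
      | zero => exact hδsy
      | succ j ih => exact hcon (s + j) (by omega) ih
    apply this s
    rw [← two_mul]
    exact hδ2sy
  obtain ⟨k, hsk, hk1, hk2⟩ := hex
  have hky : (δ ^ k) y = one := by
    rw [pow_succ'] at hk2
    rcases hkerδ _ hk2 with h | h
    · exact absurd h hk1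
    · exact h
  have hKδ : ∀ z ∈ K, δ z ∈ K := fun z hz => K.add_mem (hKσ z hz) hz
  have hKp : ∀ i, ∀ z ∈ K, (δ ^ i) z ∈ K := by
    intro i
    induction i with
    | zero => intro z hz; simpa using hz
    | succ i ih =>
      intro z hz
      rw [pow_succ]
      exact ih _ (hKδ z hz)
  -- K contains E_0 = ker δ^s
  have hKE0 : ∀ z, (δ ^ s) z = 0 → z ∈ K :=
    uni δ one hkerδ K hKδ y hPrK k hky s (by omega)
  -- the vector u
  set u := (δ ^ (k - s)) y with hu
  have hδsu : (δ ^ s) u = one := by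
    rw [← hky, hu]
    have h2 : k = s + (k - s) := by omega
    conv_rhs => rw [h2, pow_add]
    rfl
  have hδ2su : (δ ^ (2 * s)) u = 0 := by
    rw [two_mul, pow_add]
    show (δ ^ s) ((δ ^ s) u) = 0
    rw [hδsu, hδs]
    have : ∀ k : ℕ, (σ ^ k) one = one := by
      intro k
      induction k with
      | zero => simp
      | succ k ih => rw [pow_succ]; show (σ ^ k) (σ one) = one; rw [hone, ih]
    rw [this, hV]
  have huper : (σ ^ (2 * s)) u = u := by
    rw [hδ2s] at hδ2su
    have h1 : (σ ^ (2 * s)) u = (σ ^ (2 * s)) u + u + u := by rw [add_assoc, hV, add_zero]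
    rw [h1, hδ2su, zero_add]
  have hτu : τ u = u + one := by
    rw [hper u huper]
    rw [hδs] at hδsu
    rw [← hδsu]
    have : u + ((σ ^ s) u + u) = (σ ^ s) u + (u + u) := by abel
    rw [this, hV, add_zero]
  have huE : u ∉ E := by
    rw [hEmem, hτu]
    intro h
    apply hne
    have : one = u + (u + one) := by rw [← add_assoc, hV, zero_add]
    rw [this, h, hV]
  have hbalu := coset_balanced E hcard f (fun x hx => hconst x hx) hbal u huE
  -- δ u ∈ ker δ^s
  have hδδu : (δ ^ s) (δ u) = 0 := by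
    have : (δ ^ s) (δ u) = δ ((δ ^ s) u) := by
      have h1 : δ ^ s * δ = δ * δ ^ s := by rw [← pow_succ, ← pow_succ']
      exact congrArg (fun g : Module.End (ZMod 2) V => g u) h1
    rw [this, hδsu, hδone]
  have hkE : ∀ z, (δ ^ s) z = 0 → z ∈ E := by
    intro z hz
    have h1 : (σ ^ s) z = z := by
      rw [hδs] at hz
      have h1 : (σ ^ s) z = (σ ^ s) z + z + z := by rw [add_assoc, hV, add_zero]
      rw [h1, hz, zero_add]
    have h2 : (σ ^ (2 * s)) z = z := by
      rw [two_mul, pow_add]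
      show (σ ^ s) ((σ ^ s) z) = z
      rw [h1, h1]
    rw [hEmem, hper z h2, h1]
  -- quadratic function on u + E
  obtain ⟨r1, hr1rad, hr1⟩ := quad_rad (V := E) (fun e => f (u + (e : V)))
    (fun x y => T f u (x : V) (y : V))
    (by
      intro x y
      simp only [T, AddSubgroup.coe_add, AddSubgroup.coe_zero, add_zero]
      rw [hconst _ (E.add_mem x.2 y.2), hconst _ x.2, hconst _ y.2]
      rw [← add_assoc]
      linear_combination (-(f (u + (x:V)) + f (u + (y : V)) + f u + 2 * f 0)) * two0)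
    (by
      intro x x' y
      simp only [AddSubgroup.coe_add]
      exact hT2 u x x' y)
    hbalu
  -- R1
  let R1 : AddSubgroup V :=
    { carrier := {y | y ∈ E ∧ ∀ x ∈ E, T f u x y = 0}
      add_mem' := by
        rintro y y' ⟨hyE, hy⟩ ⟨hyE', hy'⟩
        refine ⟨E.add_mem hyE hyE', fun x hx => ?_⟩
        rw [hT3, hy x hx, hy' x hx, add_zero]
      zero_mem' := ⟨E.zero_mem, fun x _ => hT0 u x⟩
      neg_mem' := by
        rintro y ⟨hyE, hy⟩
        have : -y = y := neg_eq_of_add_eq_zero_left (hV y)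
        rw [this]
        exact ⟨hyE, hy⟩ }
  have hR1mem : ∀ y, y ∈ R1 ↔ (y ∈ E ∧ ∀ x ∈ E, T f u x y = 0) := fun y => Iff.rfl
  have hR1E0 : ∀ w, (δ ^ s) w = 0 → w ∈ R1 := by
    intro w hw
    have hwE := hkE w hw
    have hwK := hKE0 w hw
    rw [hR1mem]
    refine ⟨hwE, fun x hx => ?_⟩
    obtain ⟨z, hz⟩ := hE x hx
    have h1 : T f z w one = 0 := hwK z
    have h2 : one = u + τ u := by rw [hτu, ← add_assoc, hV, zero_add]
    rw [h2, hT3] at h1
    have h3 : T f z w (τ u) = T f (τ z) w u := by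
      rw [← hTτ (τ z) w u, hττ]
      rw [show τ w = w from hwE]
    rw [h3, ← hT, ← hz] at h1
    -- h1 : T f x w u = 0
    have h4 : T f u x w = T f x w u := by
      rw [T_swap12 f u x w, T_swap23 f x u w]
    rw [h4]
    exact h1
  have hEσ : ∀ z ∈ E, σ z ∈ E := by
    intro z hz
    rw [hEmem] at hz ⊢
    rw [hτσ, hz]
  have hEσp : ∀ i : ℕ, ∀ z ∈ E, (σ ^ i) z ∈ E := by
    intro i
    induction i with
    | zero => intro z hz; simpa using hz
    | succ i ih =>
      intro z hz
      rw [pow_succ]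
      exact ih _ (hEσ z hz)
  have hσinvE : ∀ x ∈ E, ∃ x' ∈ E, x = σ x' := by
    intro x hx
    refine ⟨(σ ^ (2 ^ (a + 1) * n' - 1)) x, hEσp _ x hx, ?_⟩
    have h1 : σ * σ ^ (2 ^ (a + 1) * n' - 1) = 1 := by
      rw [← pow_succ', ← hσ]
      congr 1
      have : 0 < 2 ^ (a + 1) * n' := Nat.mul_pos (by positivity) hn'.pos
      omega
    exact (congrArg (fun g : Module.End (ZMod 2) V => g x) h1).symm
  have hδuE : δ u ∈ E := hkE _ hδδu
  have hσu : σ u = u + δ u := by
    rw [hδa]
    have : u + (σ u + u) = σ u + (u + u) := by abel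
    rw [this, hV, add_zero]
  have hu2 : u = σ u + δ u := by
    rw [hσu, add_assoc, hV, add_zero]
  have hR1σ : ∀ z ∈ R1, σ z ∈ R1 := by
    rintro z ⟨hzE, hz⟩
    refine ⟨hEσ z hzE, fun x hx => ?_⟩
    obtain ⟨x', hx', rfl⟩ := hσinvE x hx
    have h1 : T f u (σ x') (σ z) = T f (σ u) (σ x') (σ z) + T f (δ u) (σ x') (σ z) := by
      rw [← hT, ← hu2]
    rw [h1, hTinv, hz x' hx', hTE _ hδuE _ hx _ (hEσ z hzE), add_zero]
  let mu : V → ZMod 2 := fun x => f (u + x) + f u
  have hmu_add : ∀ x ∈ R1, ∀ y ∈ R1, mu (x + y) = mu x + mu y := by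
    rintro x ⟨hxE, hx⟩ y ⟨hyE, hy⟩
    have h1 := hy x hxE
    simp only [mu]
    simp only [T] at h1
    rw [hconst _ (E.add_mem hxE hyE), hconst _ hxE, hconst _ hyE] at h1
    rw [← add_assoc]
    linear_combination h1 - (2 * f 0 + f (u + x) + f (u + y) + f u) * two0
  have hδuR : δ u ∈ R1 := hR1E0 _ hδδu
  have hmuδu : mu (δ u) = 0 := by
    simp only [mu]
    rw [← hσu, hf, z2_self]
  have hmu_inv : ∀ x ∈ R1, mu (σ x) = mu x := by
    intro x hx
    have h1 := hmu_add _ (hR1σ x hx) _ hδuR
    rw [hmuδu, add_zero] at h1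
    rw [← h1]
    simp only [mu]
    have h2 : u + (σ x + δ u) = σ (u + x) := by
      rw [map_add, hσu]; abel
    rw [h2, hf]
  have hmu0 : mu 0 = 0 := by
    simp only [mu]
    rw [add_zero, z2_self]
  let K' : AddSubgroup V :=
    { carrier := {y | y ∈ R1 ∧ mu y = 0}
      add_mem' := by
        rintro x y ⟨hx, hmx⟩ ⟨hy, hmy⟩
        exact ⟨R1.add_mem hx hy, by rw [hmu_add x hx y hy, hmx, hmy, add_zero]⟩
      zero_mem' := ⟨R1.zero_mem, hmu0⟩
      neg_mem' := by
        rintro y ⟨hy, hmy⟩
        have : -y = y := neg_eq_of_add_eq_zero_left (hV y)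
        rw [this]
        exact ⟨hy, hmy⟩ }
  have hK'δ : ∀ z ∈ K', δ z ∈ K' := by
    rintro z ⟨hz, hmz⟩
    refine ⟨?_, ?_⟩
    · rw [hδa]; exact R1.add_mem (hR1σ z hz) hz
    · rw [hδa, hmu_add _ (hR1σ z hz) _ hz, hmu_inv z hz, z2_self]
  have hspos : 0 < s := by rw [hs]; positivity
  have hK'E0 : ∀ z, (δ ^ s) z = 0 → z ∈ K' := by
    refine uni δ one hkerδ K' hK'δ (δ u) ⟨hδuR, hmuδu⟩ (s - 1) ?_ s (by omega)
    rw [← hδsu]
    have h1 : s = (s - 1) + 1 := by omega
    conv_rhs => rw [h1, pow_succ]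
    rfl
  -- conclusion
  have hr1R : (r1 : V) ∈ R1 := ⟨r1.2, fun x hx => hr1rad ⟨x, hx⟩⟩
  have hmur1 : mu (r1 : V) ≠ 0 := by
    intro h
    apply hr1
    show f (u + (r1 : V)) = f (u + ((0 : E) : V))
    rw [AddSubgroup.coe_zero, add_zero]
    exact z2_eq_of_add _ _ h
  apply hmur1
  rw [← hPlam R1 mu hR1σ hmu_add hmu_inv _ hr1R]
  have hmemP := hPmem R1 hR1σ _ hr1R
  have hperP := hPper (r1 : V)
  have hEP : τ (P r1) = P r1 := hmemP.1
  have hsP : (σ ^ s) (P r1) = P r1 := by rw [← hper _ hperP, hEP]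
  have hzP : (δ ^ s) (P r1) = 0 := by rw [hδs, hsP, hV]
  exact (hK'E0 _ hzP).2

end abs

end Pool.Agent.RSCubic
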