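import Mathlib

set_option autoImplicit false

namespace Pool.Agent.RSCubic

open Finset

/-- The sign of an element of `ZMod 2`. -/
def chi (t : ZMod 2) : ℤ := (-1) ^ t.val

lemma chi_zero : chi 0 = 1 := by decide
lemma chi_one : chi 1 = -1 := by decide
lemma chi_add (a b : ZMod 2) : chi (a + b) = chi a * chi b := by
  revert a b; decide
lemma chi_self (a : ZMod 2) : chi a * chi a = 1 := by
  revert a; decide
lemma chi_pos_or (a : ZMod 2) : chi a = 1 ∨ chi a = -1 := by
  revert a; decide
lemma two0 : (2 : ZMod 2) = 0 := by decide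
lemma z2_self (a : ZMod 2) : a + a = 0 := by
  revert a; decide
lemma z2_ne (a : ZMod 2) (h : a ≠ 0) : a = 1 := by
  revert a; decide
lemma z2_eq_of_add (a b : ZMod 2) (h : a + b = 0) : a = b := by
  revert a b; decide

section quad

variable {V : Type*} [AddCommGroup V] [Fintype V]

lemma sum_chi_hom (φ : V → ZMod 2) (hφ : ∀ x y, φ (x + y) = φ x + φ y)
    (x0 : V) (h0 : φ x0 ≠ 0) : ∑ x, chi (φ x) = 0 := by
  have h1 : ∑ x, chi (φ (x + x0)) = ∑ x, chi (φ x) :=
    Equiv.sum_comp (Equiv.addRight x0) (fun x => chi (φ x))
  have h2 : ∑ x, chi (φ (x + x0)) = - ∑ x, chi (φ x) := by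
    rw [← Finset.sum_neg_distrib]
    refine Finset.sum_congr rfl fun x _ => ?_
    rw [hφ, chi_add, z2_ne _ h0, chi_one]; ring
  linarith

lemma quad_rad (q : V → ZMod 2) (B : V → V → ZMod 2)
    (hq : ∀ x y, q (x + y) = B x y + q x + q y + q 0)
    (hB : ∀ x x' y, B (x + x') y = B x y + B x' y)
    (hbal : ∑ x, chi (q x) = 0) : ∃ r, (∀ x, B x r = 0) ∧ q r ≠ q 0 := by
  classical
  by_contra hcon
  push Not at hcon
  have h1 : (∑ x, chi (q x)) * (∑ y, chi (q y))
      = ∑ y, chi (q y + q 0) * ∑ x, chi (B x y) := by
    calc (∑ x, chi (q x)) * (∑ y, chi (q y))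
        = ∑ x, ∑ y, chi (q x) * chi (q y) := by
          rw [Finset.sum_mul_sum]
      _ = ∑ x, ∑ y, chi (q x) * chi (q (x + y)) := by
          refine Finset.sum_congr rfl fun x _ => ?_
          exact (Equiv.sum_comp (Equiv.addLeft x) (fun y => chi (q x) * chi (q y))).symm
      _ = ∑ x, ∑ y, chi (q y + q 0) * chi (B x y) := by
          refine Finset.sum_congr rfl fun x _ => Finset.sum_congr rfl fun y _ => ?_
          rw [← chi_add, ← chi_add]
          congr 1
          rw [hq x y]
          linear_combination (q x) * two0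
      _ = ∑ y, ∑ x, chi (q y + q 0) * chi (B x y) := Finset.sum_comm
      _ = ∑ y, chi (q y + q 0) * ∑ x, chi (B x y) := by
          refine Finset.sum_congr rfl fun y _ => ?_
          rw [Finset.mul_sum]
  rw [hbal, zero_mul] at h1
  have hterm : ∀ y, chi (q y + q 0) * ∑ x, chi (B x y)
      = if (∀ x, B x y = 0) then (Fintype.card V : ℤ) else 0 := by
    intro y
    by_cases hy : ∀ x, B x y = 0
    · rw [if_pos hy, hcon y hy, z2_self, chi_zero]
      simp [hy, chi_zero]
    · rw [if_neg hy]
      push Not at hy
      obtain ⟨x0, hx0⟩ := hy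
      rw [sum_chi_hom (fun x => B x y) (fun x x' => hB x x' y) x0 hx0, mul_zero]
  rw [Finset.sum_congr rfl (fun y _ => hterm y)] at h1
  have h0 : ∀ x, B x 0 = 0 := by
    intro x
    have := hq x 0
    rw [add_zero] at this
    have h2 : B x 0 + (q 0 + q 0) = 0 := by linear_combination -this
    rwa [z2_self, add_zero] at h2
  have hpos : 0 < ∑ y : V, (if (∀ x, B x y = 0) then (Fintype.card V : ℤ) else 0) := by
    refine Finset.sum_pos' (fun y _ => ?_) ⟨0, Finset.mem_univ _, ?_⟩
    · split_ifs <;> simp
    · rw [if_pos h0]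
      have : 0 < Fintype.card V := Fintype.card_pos_iff.mpr ⟨0⟩
      exact_mod_cast this
  linarith

/-- If all nonzero derivatives of `f` are balanced and `f` is constant on a subgroup `E` with
`|E|^2 = |V|` then `f` is balanced on every other coset of `E`. -/
lemma coset_balanced (E : AddSubgroup V) [DecidablePred (· ∈ E)]
    (hcard : Fintype.card E * Fintype.card E = Fintype.card V)
    (f : V → ZMod 2) (hconst : ∀ x ∈ E, f x = f 0)
    (hbal : ∀ e, e ≠ 0 → ∑ x, chi (f x + f (x + e)) = 0)
    (u : V) (hu : u ∉ E) : ∑ e : E, chi (f (u + e)) = 0 := by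
  classical
  set g : V → ℤ := fun x => ∑ e : E, chi (f (x + e)) with hg
  have hsum : ∑ x, g x * g x = (Fintype.card E : ℤ) * Fintype.card V := by
    calc ∑ x, g x * g x
        = ∑ x, ∑ e : E, ∑ e' : E, chi (f (x + e) + f (x + e')) := by
          refine Finset.sum_congr rfl fun x _ => ?_
          rw [hg, Finset.sum_mul_sum]
          simp only [chi_add]
      _ = ∑ e : E, ∑ e' : E, ∑ x, chi (f (x + e) + f (x + e')) := by
          rw [Finset.sum_comm]
          refine Finset.sum_congr rfl fun e _ => ?_
          rw [Finset.sum_comm]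
      _ = ∑ e : E, ∑ e' : E, (if e = e' then (Fintype.card V : ℤ) else 0) := by
          refine Finset.sum_congr rfl fun e _ => Finset.sum_congr rfl fun e' _ => ?_
          by_cases hee : e = e'
          · subst hee
            rw [if_pos rfl]
            simp [z2_self, chi_zero]
          · rw [if_neg hee]
            have h1 := Equiv.sum_comp (Equiv.addRight (e : V))
              (fun x => chi (f x + f (x + ((e' : V) - e))))
            have h2 : (e' : V) - e ≠ 0 := by
              intro h
              apply hee
              exact Subtype.ext (sub_eq_zero.mp h).symm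
            rw [hbal _ h2] at h1
            rw [← h1]
            refine Finset.sum_congr rfl fun x _ => ?_
            simp only [Equiv.coe_addRight]
            congr 3
            abel
      _ = (Fintype.card E : ℤ) * Fintype.card V := by
          simp
  have hE : ∀ x ∈ E, g x * g x = (Fintype.card E : ℤ) * Fintype.card E := by
    intro x hx
    have : g x = Fintype.card E * chi (f 0) := by
      rw [hg]
      simp only
      rw [Finset.sum_congr rfl (fun e _ => by rw [hconst (x + (e : V)) (E.add_mem hx e.2)])]
      simp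
    rw [this]
    have h3 := chi_self (f 0)
    linear_combination (Fintype.card E : ℤ) * (Fintype.card E : ℤ) * h3
  have hEsum : ∑ x ∈ Finset.univ.filter (· ∈ E), g x * g x
      = (Fintype.card E : ℤ) * Fintype.card V := by
    rw [Finset.sum_congr rfl (fun x hx => hE x (Finset.mem_filter.mp hx).2)]
    rw [Finset.sum_const]
    have : (Finset.univ.filter (· ∈ E)).card = Fintype.card E := by
      rw [Fintype.card_subtype]
    rw [this, ← hcard]
    push_cast
    ring
  have hrest : ∑ x ∈ Finset.univ.filter (fun x => ¬ x ∈ E), g x * g x = 0 := by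
    have := Finset.sum_filter_add_sum_filter_not Finset.univ (· ∈ E) (fun x => g x * g x)
    rw [hsum, hEsum] at this
    linarith
  have hz := (Finset.sum_eq_zero_iff_of_nonneg (fun x _ => mul_self_nonneg (g x))).mp hrest u
    (by simp [hu])
  exact mul_self_eq_zero.mp hz

end quad

section tri

variable {V : Type*} [AddCommGroup V]

/-- Third derivative at `0`. -/
def T (f : V → ZMod 2) (x y z : V) : ZMod 2 :=
  f (x + y + z) + f (x + y) + f (x + z) + f (y + z) + f x + f y + f z + f 0

lemma T_swap12 (f : V → ZMod 2) (x y z : V) : T f x y z = T f y x z := by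
  unfold T
  rw [add_comm x y]
  ring

lemma T_swap23 (f : V → ZMod 2) (x y z : V) : T f x y z = T f x z y := by
  unfold T
  rw [add_right_comm x y z, add_comm y z]
  ring

lemma T_self (hV : ∀ x : V, x + x = 0) (f : V → ZMod 2) (x z : V) : T f x x z = 0 := by
  unfold T
  rw [hV x, zero_add]
  linear_combination (f z + f 0 + f (x + z) + f x) * two0

end tri

end Pool.Agent.RSCubic
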