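import Pool.Agent.RSCubic.Main

set_option autoImplicit false

namespace Pool.Agent.RSCubic

open Finset

section trilin

variable {V : Type*} [AddCommGroup V]

lemma T_prod3 (l1 l2 l3 : V → ZMod 2) (h1 : ∀ x y, l1 (x + y) = l1 x + l1 y)
    (h2 : ∀ x y, l2 (x + y) = l2 x + l2 y) (h3 : ∀ x y, l3 (x + y) = l3 x + l3 y)
    (c1 c2 c3 : ZMod 2) (x y z : V) :
    T (fun x => (l1 x + c1) * (l2 x + c2) * (l3 x + c3)) x y z
      = l1 x * l2 y * l3 z + l1 x * l2 z * l3 y + l1 y * l2 x * l3 z + l1 y * l2 z * l3 x
        + l1 z * l2 x * l3 y + l1 z * l2 y * l3 x := by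
  have z1 : l1 0 = 0 := by
    have := h1 0 0; rw [add_zero, z2_self] at this; exact this
  have z2 : l2 0 = 0 := by
    have := h2 0 0; rw [add_zero, z2_self] at this; exact this
  have z3 : l3 0 = 0 := by
    have := h3 0 0; rw [add_zero, z2_self] at this; exact this
  simp only [T, h1, h2, h3, z1, z2, z3, zero_add]
  linear_combination
    ((l1 x + l1 y + c1) * (l2 x + l2 y + c2) * (l3 x + l3 y + c3)
     + (l1 x + l1 z + c1) * (l2 x + l2 z + c2) * (l3 x + l3 z + c3)
     + (l1 y + l1 z + c1) * (l2 y + l2 z + c2) * (l3 y + l3 z + c3)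
     + c1 * c2 * c3) * two0

end trilin

section anf

variable {ι : Type*} [Fintype ι] [DecidableEq ι]

lemma mon_form (S : Finset ι) (hS : S.card ≤ 3) :
    ∃ (l1 l2 l3 : (ι → ZMod 2) → ZMod 2) (c1 c2 c3 : ZMod 2),
      (∀ x y, l1 (x + y) = l1 x + l1 y) ∧ (∀ x y, l2 (x + y) = l2 x + l2 y) ∧
      (∀ x y, l3 (x + y) = l3 x + l3 y) ∧
      ∀ x, ∏ i ∈ S, x i = (l1 x + c1) * (l2 x + c2) * (l3 x + c3) := by
  have hc : S.card = 0 ∨ S.card = 1 ∨ S.card = 2 ∨ S.card = 3 := by omega
  rcases hc with h | h | h | h
  · rw [Finset.card_eq_zero] at h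
    subst h
    exact ⟨fun _ => 0, fun _ => 0, fun _ => 0, 1, 1, 1, by simp, by simp, by simp, by simp⟩
  · obtain ⟨i, rfl⟩ := Finset.card_eq_one.mp h
    exact ⟨fun x => x i, fun _ => 0, fun _ => 0, 0, 1, 1, by simp, by simp, by simp, by simp⟩
  · obtain ⟨i, j, hij, rfl⟩ := Finset.card_eq_two.mp h
    exact ⟨fun x => x i, fun x => x j, fun _ => 0, 0, 0, 1, by simp, by simp, by simp, by
      intro x; rw [Finset.prod_pair hij]; simp⟩
  · obtain ⟨i, j, k, hij, hik, hjk, rfl⟩ := Finset.card_eq_three.mp h
    exact ⟨fun x => x i, fun x => x j, fun x => x k, 0, 0, 0, by simp, by simp, by simp, by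
      intro x
      rw [Finset.prod_insert (by simp [hij, hik]), Finset.prod_pair hjk]
      simp [mul_assoc]⟩

lemma T_add_of_deg (f : (ι → ZMod 2) → ZMod 2) (c : Finset ι → ZMod 2)
    (hdeg : ∀ S, c S ≠ 0 → S.card ≤ 3)
    (hanf : ∀ x, f x = ∑ S : Finset ι, c S * ∏ i ∈ S, x i) (x x' y z : ι → ZMod 2) :
    T f (x + x') y z = T f x y z + T f x' y z := by
  have hlin : ∀ x y z, T f x y z = ∑ S : Finset ι, c S * T (fun x => ∏ i ∈ S, x i) x y z := by
    intro x y z
    simp only [T, hanf]
    simp only [← Finset.sum_add_distrib, ← mul_add]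
  rw [hlin, hlin, hlin, ← Finset.sum_add_distrib]
  refine Finset.sum_congr rfl fun S _ => ?_
  by_cases hS : c S = 0
  · simp [hS]
  · obtain ⟨l1, l2, l3, c1, c2, c3, h1, h2, h3, hm⟩ := mon_form S (hdeg S hS)
    have hfun : (fun x : ι → ZMod 2 => ∏ i ∈ S, x i)
        = fun x => (l1 x + c1) * (l2 x + c2) * (l3 x + c3) := funext hm
    rw [hfun, T_prod3 l1 l2 l3 h1 h2 h3, T_prod3 l1 l2 l3 h1 h2 h3, T_prod3 l1 l2 l3 h1 h2 h3,
      h1, h2, h3]
    ring

/-- Evaluating the algebraic normal form at the indicator vector of a set. -/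
lemma anf_ind (f : (ι → ZMod 2) → ZMod 2) (c : Finset ι → ZMod 2)
    (hanf : ∀ x, f x = ∑ S : Finset ι, c S * ∏ i ∈ S, x i) (A : Finset ι) :
    f (fun i => if i ∈ A then 1 else 0) = ∑ S ∈ A.powerset, c S := by
  rw [hanf]
  rw [← Finset.sum_subset (Finset.subset_univ A.powerset)]
  · refine Finset.sum_congr rfl fun S hS => ?_
    rw [Finset.prod_eq_one, mul_one]
    intro i hi
    rw [if_pos (Finset.mem_powerset.mp hS hi)]
  · intro S _ hS
    rw [Finset.mem_powerset, Finset.not_subset] at hS
    obtain ⟨i, hi, hiA⟩ := hS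
    rw [Finset.prod_eq_zero hi (by rw [if_neg hiA]), mul_zero]

lemma anf_pair (f : (ι → ZMod 2) → ZMod 2) (c : Finset ι → ZMod 2)
    (hanf : ∀ x, f x = ∑ S : Finset ι, c S * ∏ i ∈ S, x i) (i j : ι) (hij : i ≠ j) :
    c {i, j} = f (Pi.single i 1 + Pi.single j 1) + f (Pi.single i 1) + f (Pi.single j 1)
      + f 0 := by
  have e0 : (0 : ι → ZMod 2) = fun k => if k ∈ (∅ : Finset ι) then 1 else 0 := by
    funext k; simp
  have ei : ∀ i, (Pi.single i 1 : ι → ZMod 2) = fun k => if k ∈ ({i} : Finset ι) then 1 else 0 := by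
    intro i
    funext k
    simp [Pi.single_apply]
  have eij : (Pi.single i 1 + Pi.single j 1 : ι → ZMod 2)
      = fun k => if k ∈ ({i, j} : Finset ι) then 1 else 0 := by
    funext k
    simp only [Pi.add_apply, Pi.single_apply, Finset.mem_insert, Finset.mem_singleton]
    by_cases h1 : k = i
    · have h2 : k ≠ j := by rw [h1]; exact hij
      simp [h1, hij]
    · simp [h1]
  rw [eij, ei i, ei j, e0, anf_ind f c hanf, anf_ind f c hanf, anf_ind f c hanf,
    anf_ind f c hanf]
  have p0 : (∅ : Finset ι).powerset = {∅} := Finset.powerset_empty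
  have p1 : ∀ i : ι, ({i} : Finset ι).powerset = {∅, {i}} := by
    intro i
    ext S
    simp [Finset.subset_singleton_iff]
  have p2 : ({i, j} : Finset ι).powerset = {∅, {i}, {j}, {i, j}} := by
    ext S
    simp only [Finset.mem_powerset, Finset.mem_insert, Finset.mem_singleton]
    constructor
    · intro h
      by_cases hi : i ∈ S <;> by_cases hj : j ∈ S
      · right; right; right
        apply Finset.Subset.antisymm h
        intro k hk
        simp only [Finset.mem_insert, Finset.mem_singleton] at hk
        rcases hk with rfl | rfl <;> assumption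
      · right; left
        ext k
        simp only [Finset.mem_singleton]
        constructor
        · intro hk
          have := h hk
          simp only [Finset.mem_insert, Finset.mem_singleton] at this
          rcases this with rfl | rfl
          · rfl
          · exact absurd hk hj
        · rintro rfl; exact hi
      · right; right; left
        ext k
        simp only [Finset.mem_singleton]
        constructor
        · intro hk
          have := h hk
          simp only [Finset.mem_insert, Finset.mem_singleton] at this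
          rcases this with rfl | rfl
          · exact absurd hk hi
          · rfl
        · rintro rfl; exact hj
      · left
        ext k
        simp only [Finset.notMem_empty, iff_false]
        intro hk
        have := h hk
        simp only [Finset.mem_insert, Finset.mem_singleton] at this
        rcases this with rfl | rfl
        · exact hi hk
        · exact hj hk
    · rintro (rfl | rfl | rfl | rfl) <;> simp
  rw [p0, p1, p1, p2]
  have n1 : (∅ : Finset ι) ≠ {i} := (Finset.singleton_ne_empty i).symm
  have n2 : (∅ : Finset ι) ≠ {j} := (Finset.singleton_ne_empty j).symm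
  have n3 : (∅ : Finset ι) ≠ {i, j} := (Finset.insert_ne_empty i _).symm
  have n4 : ({i} : Finset ι) ≠ {j} := by
    intro h; exact hij (Finset.singleton_injective h)
  have n5 : ({i} : Finset ι) ≠ {i, j} := by
    intro h
    have : j ∈ ({i} : Finset ι) := by rw [h]; simp
    exact hij (Finset.mem_singleton.mp this).symm
  have n6 : ({j} : Finset ι) ≠ {i, j} := by
    intro h
    have : i ∈ ({j} : Finset ι) := by rw [h]; simp
    exact hij (Finset.mem_singleton.mp this)
  rw [Finset.sum_insert (by simp [n1, n2, n3]), Finset.sum_insert (by simp [n4, n5]),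
    Finset.sum_insert (by simp [n6]), Finset.sum_singleton, Finset.sum_pair n1,
    Finset.sum_pair n2, Finset.sum_singleton]
  linear_combination (-(2 * c ∅ + c {i} + c {j})) * two0

/-- Bentness implies that nonzero derivatives are balanced. -/
lemma bal_of_bent (f : (ι → ZMod 2) → ZMod 2)
    (hb : ∀ a : ι → ZMod 2, (∑ x : ι → ZMod 2, chi (f x + ∑ i, a i * x i)) ^ 2
      = (2 : ℤ) ^ (Fintype.card ι)) (e : ι → ZMod 2) (he : e ≠ 0) :
    ∑ x, chi (f x + f (x + e)) = 0 := by
  -- orthogonality
  have horth : ∀ z : ι → ZMod 2, z ≠ 0 → ∑ a : ι → ZMod 2, chi (∑ i, a i * z i) = 0 := by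
    intro z hz
    obtain ⟨i, hi⟩ := Function.ne_iff.mp hz
    refine sum_chi_hom (fun a : ι → ZMod 2 => ∑ i, a i * z i) ?_ (Pi.single i 1) ?_
    · intro a b
      simp only [Pi.add_apply, add_mul, Finset.sum_add_distrib]
    · have : ∑ k, (Pi.single i 1 : ι → ZMod 2) k * z k = z i := by
        rw [Finset.sum_eq_single i]
        · simp
        · intro b _ hb; simp [Pi.single_apply, hb]
        · simp
      rw [this]
      exact hi
  have hcard : ∑ a : ι → ZMod 2, chi (∑ i, a i * (0 : ι → ZMod 2) i) = (2 : ℤ) ^ Fintype.card ι := by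
    simp [chi_zero, ZMod.card]
  have h1 : ∑ a : ι → ZMod 2, chi (∑ i, a i * e i) *
      (∑ x : ι → ZMod 2, chi (f x + ∑ i, a i * x i)) ^ 2 = 0 := by
    rw [Finset.sum_congr rfl (fun a _ => by rw [hb a]), ← Finset.sum_mul, horth e he, zero_mul]
  have h2 : ∑ a : ι → ZMod 2, chi (∑ i, a i * e i) *
      (∑ x : ι → ZMod 2, chi (f x + ∑ i, a i * x i)) ^ 2
      = (2 : ℤ) ^ Fintype.card ι * ∑ x, chi (f x + f (x + e)) := by
    calc ∑ a : ι → ZMod 2, chi (∑ i, a i * e i) *
          (∑ x : ι → ZMod 2, chi (f x + ∑ i, a i * x i)) ^ 2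
        = ∑ a : ι → ZMod 2, ∑ x : ι → ZMod 2, ∑ y : ι → ZMod 2,
            chi (f x + f y) * chi (∑ i, a i * (e + x + y) i) := by
          refine Finset.sum_congr rfl fun a _ => ?_
          rw [sq, Finset.sum_mul_sum, Finset.mul_sum]
          refine Finset.sum_congr rfl fun x _ => ?_
          rw [Finset.mul_sum]
          refine Finset.sum_congr rfl fun y _ => ?_
          rw [← chi_add, ← chi_add, ← chi_add]
          congr 1
          simp only [Pi.add_apply, mul_add, Finset.sum_add_distrib]
          ring
      _ = ∑ x : ι → ZMod 2, ∑ y : ι → ZMod 2, ∑ a : ι → ZMod 2,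
            chi (f x + f y) * chi (∑ i, a i * (e + x + y) i) := by
          rw [Finset.sum_comm]
          refine Finset.sum_congr rfl fun x _ => ?_
          rw [Finset.sum_comm]
      _ = ∑ x : ι → ZMod 2, ∑ y : ι → ZMod 2,
            (if y = x + e then (2 : ℤ) ^ Fintype.card ι * chi (f x + f (x + e)) else 0) := by
          refine Finset.sum_congr rfl fun x _ => Finset.sum_congr rfl fun y _ => ?_
          rw [← Finset.mul_sum]
          by_cases hy : y = x + e
          · rw [if_pos hy]
            have h0 : e + x + y = 0 := by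
              rw [hy]
              have : e + x + (x + e) = (x + x) + (e + e) := by abel
              rw [this, v_self, v_self, add_zero]
            rw [h0, hcard, hy]
            ring
          · rw [if_neg hy, horth, mul_zero]
            intro h0
            apply hy
            have : y = (e + x + y) + (x + e) := by
              have : (e + x + y) + (x + e) = y + (x + x) + (e + e) := by abel
              rw [this, v_self, v_self, add_zero, add_zero]
            rw [this, h0, zero_add]
      _ = (2 : ℤ) ^ Fintype.card ι * ∑ x, chi (f x + f (x + e)) := by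
          rw [Finset.mul_sum]
          refine Finset.sum_congr rfl fun x _ => ?_
          simp
  rw [h1] at h2
  have h3 : (2 : ℤ) ^ Fintype.card ι ≠ 0 := by positivity
  exact (mul_eq_zero.mp h2.symm).resolve_left h3

end anf

end Pool.Agent.RSCubic
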