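import Pool.Agent.RSCubic.Concrete

set_option autoImplicit false

namespace Pool.Agent.RSCubic

open Finset

section cyc

variable (n : ℕ) [NeZero n]

/-- The cyclic shift on `ZMod n → ZMod 2`. -/
def sh : Module.End (ZMod 2) (ZMod n → ZMod 2) :=
  LinearMap.funLeft (ZMod 2) (ZMod 2) (fun i : ZMod n => i + 1)

lemma sh_apply (x : ZMod n → ZMod 2) (i : ZMod n) : sh n x i = x (i + 1) := rfl

lemma sh_pow (k : ℕ) (x : ZMod n → ZMod 2) (i : ZMod n) :
    (sh n ^ k) x i = x (i + (k : ZMod n)) := by
  induction k generalizing i with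
  | zero => simp
  | succ k ih =>
    rw [pow_succ']
    show (sh n) ((sh n ^ k) x) i = _
    rw [sh_apply, ih]
    congr 1
    push_cast
    ring

lemma sh_ker (x : ZMod n → ZMod 2) (hx : sh n x = x) : x = 0 ∨ x = fun _ => 1 := by
  have h1 : ∀ k : ℕ, x ((k : ℕ) : ZMod n) = x 0 := by
    intro k
    induction k with
    | zero => simp
    | succ k ih =>
      rw [← ih]
      have := congrFun hx ((k : ℕ) : ZMod n)
      rw [sh_apply] at this
      push_cast
      exact this
  have h2 : ∀ i, x i = x 0 := by
    intro i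
    have := h1 i.val
    rwa [ZMod.natCast_zmod_val] at this
  rcases eq_or_ne (x 0) 0 with h | h
  · left; funext i; rw [h2, h]; rfl
  · right; funext i; rw [h2, z2_ne _ h]

variable (m : ℕ) (hm : n = m + m)

include hm in
lemma mm_zero : (m : ZMod n) + (m : ZMod n) = 0 := by
  rw [← Nat.cast_add, ← hm, ZMod.natCast_self]

include hm in
lemma val_add_m (i : ZMod n) :
    (i + (m : ZMod n)).val = if i.val < m then i.val + m else i.val - m := by
  have hn : 0 < n := Nat.pos_of_ne_zero (NeZero.ne n)
  have hi := ZMod.val_lt i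
  rw [ZMod.val_add, ZMod.val_natCast]
  have h1 : m % n = m := Nat.mod_eq_of_lt (by omega)
  rw [h1]
  split_ifs with h
  · exact Nat.mod_eq_of_lt (by omega)
  · have : i.val + m = (i.val - m) + n := by omega
    rw [this, Nat.add_mod_right]
    exact Nat.mod_eq_of_lt (by omega)

include hm in
lemma sh_E (x : ZMod n → ZMod 2) (hx : (sh n ^ m) x = x) :
    ∃ z, x = z + (sh n ^ m) z := by
  refine ⟨fun i => if i.val < m then x i else 0, ?_⟩
  funext i
  rw [Pi.add_apply, sh_pow]
  have hv := val_add_m n m hm i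
  by_cases h : i.val < m
  · rw [if_pos h] at hv
    rw [if_pos h, hv, if_neg (by omega), add_zero]
  · rw [if_neg h] at hv
    have hi := ZMod.val_lt i
    rw [if_neg h, hv, if_pos (by omega), zero_add]
    have := congrFun hx i
    rw [sh_pow] at this
    exact this.symm

include hm in
/-- The polar form of `f` vanishes on `E`. -/
lemma affine_on_E (f : (ZMod n → ZMod 2) → ZMod 2) (hf : ∀ x, f (sh n x) = f x)
    (hT : ∀ x x' y z, T f (x + x') y z = T f x y z + T f x' y z)
    (x y : ZMod n → ZMod 2) (hx : (sh n ^ m) x = x) (hy : (sh n ^ m) y = y) :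
    f (x + y) = f x + f y + f 0 := by
  obtain ⟨p, hp⟩ := sh_E n m hm x hx
  obtain ⟨q, hq⟩ := sh_E n m hm y hy
  set τ := sh n ^ m with hτ
  have hfp : ∀ k : ℕ, ∀ x, f ((sh n ^ k) x) = f x := by
    intro k
    induction k with
    | zero => intro x; simp
    | succ k ih => intro x; rw [pow_succ]; exact (ih _).trans (hf x)
  have hττ : ∀ x, τ (τ x) = x := by
    intro x
    funext i
    rw [hτ, sh_pow, sh_pow, add_assoc, mm_zero n m hm, add_zero]
  have hTτ : ∀ x y z, T f (τ x) (τ y) (τ z) = T f x y z := by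
    intro x y z
    unfold T
    simp only [← map_add, hτ, hfp]
  have hT3 : ∀ x y z z', T f x y (z + z') = T f x y z + T f x y z' := by
    intro x y z z'
    rw [T_swap23, T_swap12, hT, T_swap12, T_swap23, T_swap12 f z', T_swap23 f x z']
  -- T (x, y, p) = 0
  have hTz : T f x y p = 0 := by
    have h1 : T f x y p = T f p y p + T f (τ p) y p := by rw [← hT, ← hp]
    have h2 : T f p y p = 0 := by rw [T_swap23, T_self v_self]
    have h3 : T f (τ p) y p = T f (τ p) p q + T f (τ p) p (τ q) := by
      rw [T_swap23, ← hT3, ← hq]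
    have h4 : T f (τ p) p (τ q) = T f (τ p) p q := by
      rw [← hTτ (τ p) p (τ q), hττ, hττ, T_swap12]
    rw [h1, h2, h3, h4, zero_add, z2_self]
  -- the second derivative at p
  have hd : f (p + x + y) + f (p + x) + f (p + y) + f p = 0 := by
    have h1 : p + x = τ p := by
      have h2 : p + x = (p + p) + τ p := by rw [add_assoc, ← hp]
      rw [h2, v_self, zero_add]
    have h3 : f (τ p + y) = f (p + y) := by
      have : τ p + y = τ (p + y) := by rw [map_add, hy]
      rw [this, hτ, hfp]
    have h4 : f (τ p) = f p := hfp m p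
    rw [h1, h3, h4]
    linear_combination (f (p + y) + f p) * two0
  unfold T at hTz
  have e1 : x + y + p = p + x + y := by abel
  have e2 : x + p = p + x := by abel
  have e3 : y + p = p + y := by abel
  rw [e1, e2, e3] at hTz
  linear_combination hTz - hd - (f x + f y + f 0) * two0

/-- The generators of `E`. -/
def gen (i : ZMod n) : ZMod n → ZMod 2 := Pi.single i 1 + Pi.single (i + (m : ZMod n)) 1

lemma sh_single (i : ZMod n) :
    sh n (Pi.single (i + 1) 1) = (Pi.single i 1 : ZMod n → ZMod 2) := by
  funext k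
  rw [sh_apply, Pi.single_apply, Pi.single_apply]
  by_cases h : k = i
  · rw [h]; simp
  · rw [if_neg h, if_neg (fun h' => h (add_right_cancel h'))]

lemma f_single (f : (ZMod n → ZMod 2) → ZMod 2) (hf : ∀ x, f (sh n x) = f x) (i : ZMod n) :
    f (Pi.single i 1) = f (Pi.single 0 1) := by
  have h1 : ∀ k : ℕ, f (Pi.single ((k : ℕ) : ZMod n) 1) = f (Pi.single 0 1) := by
    intro k
    induction k with
    | zero => simp
    | succ k ih =>
      rw [← ih, ← hf]
      push_cast
      rw [sh_single]
  have := h1 i.val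
  rwa [ZMod.natCast_zmod_val] at this

lemma f_gen (f : (ZMod n → ZMod 2) → ZMod 2) (hf : ∀ x, f (sh n x) = f x) (i : ZMod n) :
    f (gen n m i) = f (gen n m 0) := by
  have h1 : ∀ k : ℕ, f (gen n m ((k : ℕ) : ZMod n)) = f (gen n m 0) := by
    intro k
    induction k with
    | zero => simp
    | succ k ih =>
      rw [← ih, ← hf]
      congr 1
      unfold gen
      rw [map_add]
      push_cast
      rw [sh_single, add_right_comm, sh_single]
  have := h1 i.val
  rwa [ZMod.natCast_zmod_val] at this

include hm in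
lemma const_on_E (f : (ZMod n → ZMod 2) → ZMod 2) (hf : ∀ x, f (sh n x) = f x)
    (hT : ∀ x x' y z, T f (x + x') y z = T f x y z + T f x' y z)
    (i0 : ZMod n) (h0 : f (gen n m i0) = f 0)
    (x : ZMod n → ZMod 2) (hx : (sh n ^ m) x = x) : f x = f 0 := by
  have haff := affine_on_E n m hm f hf hT
  have hτgen : ∀ i, (sh n ^ m) (gen n m i) = gen n m i := by
    intro i
    funext k
    rw [sh_pow]
    simp only [gen, Pi.add_apply, Pi.single_apply]
    have e1 : (k + (m : ZMod n) = i) ↔ (k = i + (m : ZMod n)) := by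
      constructor
      · intro h
        rw [← h, add_assoc, mm_zero n m hm, add_zero]
      · intro h
        rw [h, add_assoc, mm_zero n m hm, add_zero]
    have e2 : (k + (m : ZMod n) = i + (m : ZMod n)) ↔ (k = i) := add_left_inj _
    simp only [e1, e2]
    exact add_comm _ _
  have hg : ∀ i, f (gen n m i) = f 0 := by
    intro i
    rw [f_gen n m f hf i, ← f_gen n m f hf i0, h0]
  -- the subgroup
  let G : AddSubgroup (ZMod n → ZMod 2) :=
    { carrier := {x | (sh n ^ m) x = x ∧ f x = f 0}
      add_mem' := by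
        rintro x y ⟨hx, hfx⟩ ⟨hy, hfy⟩
        refine ⟨by rw [map_add, hx, hy], ?_⟩
        rw [haff x y hx hy, hfx, hfy]
        linear_combination (f 0) * two0
      zero_mem' := ⟨by simp, rfl⟩
      neg_mem' := by
        rintro x ⟨hx, hfx⟩
        have : -x = x := neg_eq_of_add_eq_zero_left (v_self x)
        rw [this]
        exact ⟨hx, hfx⟩ }
  have hGgen : ∀ i, gen n m i ∈ G := fun i => ⟨hτgen i, hg i⟩
  have hsum : x = ∑ i ∈ Finset.univ.filter (fun i : ZMod n => i.val < m ∧ x i = 1), gen n m i := by
    funext k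
    rw [Finset.sum_apply]
    simp only [gen, Pi.add_apply, Pi.single_apply]
    rw [Finset.sum_add_distrib, Finset.sum_ite_eq]
    have hv := val_add_m n m hm k
    have hxk := congrFun hx k
    rw [sh_pow] at hxk
    have e3 : ∀ i : ZMod n, (k = i + (m : ZMod n)) ↔ (k + (m : ZMod n) = i) := by
      intro i
      constructor
      · intro h
        rw [h, add_assoc, mm_zero n m hm, add_zero]
      · intro h
        rw [← h, add_assoc, mm_zero n m hm, add_zero]
    simp only [e3]
    rw [Finset.sum_ite_eq]
    simp only [Finset.mem_filter, Finset.mem_univ, true_and]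
    rw [hxk]
    by_cases h : k.val < m
    · rw [if_pos h] at hv
      have h2 : ¬ ((k + (m : ZMod n)).val < m ∧ x k = 1) := by
        rintro ⟨h3, _⟩; omega
      rw [if_neg h2, add_zero]
      by_cases h3 : x k = 1
      · rw [if_pos ⟨h, h3⟩, h3]
      · rw [if_neg (fun h4 => h3 h4.2)]
        by_contra h4
        exact h3 (z2_ne _ h4)
    · rw [if_neg h] at hv
      have hi := ZMod.val_lt k
      rw [if_neg (fun h4 => h h4.1), zero_add]
      by_cases h3 : x k = 1
      · rw [if_pos ⟨by omega, h3⟩, h3]
      · rw [if_neg (fun h4 => h3 h4.2)]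
        by_contra h4
        exact h3 (z2_ne _ h4)
  have hmem : x ∈ G := by
    rw [hsum]
    exact G.sum_mem fun i _ => hGgen i
  exact hmem.2

include hm in
/-- The main theorem on `ZMod n`. -/
theorem zmod_main (f : (ZMod n → ZMod 2) → ZMod 2) (c : Finset (ZMod n) → ZMod 2)
    (hdeg : ∀ S, c S ≠ 0 → S.card ≤ 3)
    (hanf : ∀ x, f x = ∑ S : Finset (ZMod n), c S * ∏ i ∈ S, x i)
    (hf : ∀ x, f (sh n x) = f x)
    (hb : ∀ a : ZMod n → ZMod 2, (∑ x : ZMod n → ZMod 2, chi (f x + ∑ i, a i * x i)) ^ 2
      = (2 : ℤ) ^ n) (i : ZMod n) : c {i, i + (m : ZMod n)} = 1 := by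
  by_contra hc
  have hc0 : c {i, i + (m : ZMod n)} = 0 := by
    by_contra h
    exact hc (z2_ne _ h)
  have hn : 0 < n := Nat.pos_of_ne_zero (NeZero.ne n)
  have hmpos : 0 < m := by omega
  have hne : i ≠ i + (m : ZMod n) := by
    intro h
    have h1 : (m : ZMod n) = 0 := by
      have := congrArg (fun t => t - i) h
      simpa using this.symm
    have h2 := congrArg ZMod.val h1
    rw [ZMod.val_natCast, ZMod.val_zero, Nat.mod_eq_of_lt (by omega)] at h2
    omega
  have hT := T_add_of_deg f c hdeg hanf
  have hpair := anf_pair f c hanf i (i + (m : ZMod n)) hne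
  rw [hc0, f_single n f hf i, f_single n f hf (i + (m : ZMod n))] at hpair
  have h0 : f (gen n m i) = f 0 := by
    unfold gen
    apply z2_eq_of_add
    linear_combination -hpair - (f (Pi.single 0 1)) * two0
  have hconst := const_on_E n m hm f hf hT i h0
  obtain ⟨a, n', hn', hmeq⟩ := Nat.exists_eq_two_pow_mul_odd (n := m) (by omega)
  have hbal := bal_of_bent f (by
    intro a
    rw [hb a, ZMod.card])
  refine abstract_main (sh n) (fun _ => 1) a n' hn' ?_ (sh_ker n) ?_ ?_ ?_ f hf hT ?_ hbal
  · have h1 : 2 ^ (a + 1) * n' = n := by rw [hm, hmeq]; ring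
    rw [h1]
    refine LinearMap.ext fun x => funext fun i => ?_
    rw [sh_pow]
    simp
  · funext i; rfl
  · intro h
    have := congrFun h 0
    simp at this
  · rw [← hmeq]
    exact sh_E n m hm
  · rw [← hmeq]
    exact hconst

end cyc

end Pool.Agent.RSCubic
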